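import Mathlib

set_option autoImplicit false

/-!
# A CPET tree whose only vertex of degree four is adjacent to exactly one leaf

The spider `S(15, 12, 2, 1)` on 31 vertices has a connected partition of every type, and its only
vertex of degree four (the centre) is adjacent to exactly one leaf.
-/

namespace Pool.Agent.Results.MP_6c5f5a_co.Counterexample

open SimpleGraph

/-- `HasConnectedPartition G lam`: the vertex set of the finite graph `G` has a set partition all
of whose blocks induce connected subgraphs of `G`, and whose multiset of block sizes is `lam`. -/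
def HasConnectedPartition {V : Type*} [Fintype V] [DecidableEq V] (G : SimpleGraph V)
    (lam : Multiset ℕ) : Prop :=
  ∃ P : Finpartition (Finset.univ : Finset V),
    (∀ B ∈ P.parts, (G.induce (B : Set V)).Connected) ∧ P.parts.val.map Finset.card = lam

/-- `IsCPET G`: the finite graph `G` is a tree of maximum degree `4` which has a connected
partition of type `lam` for every integer partition `lam` of its number of vertices. -/
structure IsCPET {V : Type*} [Fintype V] [DecidableEq V] (G : SimpleGraph V)
    [DecidableRel G.Adj] : Prop where
  isTree : G.IsTree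
  maxDegree_eq : G.maxDegree = 4
  hasConnectedPartition :
    ∀ lam : (Fintype.card V).Partition, HasConnectedPartition G lam.parts

/-- The oriented edges of the spider: the path `0 - 1 - ... - 27` (whose vertex `15` is the
centre), the path `15 - 28 - 29` and the edge `15 - 30`. -/
def edge (i j : Fin 31) : Prop :=
  (i.val + 1 = j.val ∧ j.val ≤ 27) ∨ (i.val = 15 ∧ j.val = 28) ∨ (i.val = 28 ∧ j.val = 29) ∨
    (i.val = 15 ∧ j.val = 30)

instance : DecidableRel edge := fun i j => by unfold edge; infer_instance

/-- The spider `S(15, 12, 2, 1)`. -/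
def spider : SimpleGraph (Fin 31) where
  Adj i j := edge i j ∨ edge j i
  symm := ⟨fun _ _ h => h.symm⟩
  loopless := ⟨fun i h => by
    simp only [edge] at h
    omega⟩

instance : DecidableRel spider.Adj := fun i j => by unfold spider; infer_instance

lemma adj_iff (i j : Fin 31) : spider.Adj i j ↔ edge i j ∨ edge j i := Iff.rfl

/-- The set of vertices with number in `[a, b)`. -/
def seg (a b : ℕ) : Finset (Fin 31) := Finset.univ.filter fun i => a ≤ i.val ∧ i.val < b

lemma mem_seg {a b : ℕ} {i : Fin 31} : i ∈ seg a b ↔ a ≤ i.val ∧ i.val < b := by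
  simp [seg]

/-- The interval `[a, b)` lies in one of the three paths into which the numbering is cut. -/
def Good (a b : ℕ) : Prop := b ≤ 28 ∨ (28 ≤ a ∧ b ≤ 30) ∨ (30 ≤ a ∧ b ≤ 31)

lemma seg_card {a b : ℕ} (hb : b ≤ 31) : (seg a b).card = b - a := by
  have h : (seg a b).map ⟨Fin.val, Fin.val_injective⟩ = Finset.Ico a b := by
    ext x
    simp only [Finset.mem_map, mem_seg, Function.Embedding.coeFn_mk, Finset.mem_Ico]
    constructor
    · rintro ⟨i, hi, rfl⟩
      exact hi
    · intro hx
      exact ⟨⟨x, by omega⟩, hx, rfl⟩
  rw [← Finset.card_map ⟨Fin.val, Fin.val_injective⟩, h, Nat.card_Ico]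

lemma seg_connected {a b : ℕ} (hab : a < b) (hg : Good a b) :
    (spider.induce (seg a b : Set (Fin 31))).Connected := by
  have hb : b ≤ 31 := by
    rcases hg with h | h | h <;> omega
  obtain ⟨d, rfl⟩ : ∃ d, b = a + d + 1 := ⟨b - a - 1, by omega⟩
  clear hab
  induction d with
  | zero =>
    have : (seg a (a + 0 + 1) : Set (Fin 31)) = {(⟨a, by omega⟩ : Fin 31)} := by
      ext i
      simp only [Finset.mem_coe, mem_seg, Set.mem_singleton_iff, Fin.ext_iff]
      omega
    rw [this]
    have : Subsingleton ({(⟨a, by omega⟩ : Fin 31)} : Set (Fin 31)) := by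
      infer_instance
    have : Nonempty ({(⟨a, by omega⟩ : Fin 31)} : Set (Fin 31)) := by
      infer_instance
    exact ⟨fun x y => by rw [Subsingleton.elim x y]⟩
  | succ d ih =>
    have hg' : Good a (a + d + 1) := by
      rcases hg with h | h | h
      · left; omega
      · right; left; omega
      · right; right; omega
    have h1 := ih hg' (by omega)
    have hs : (seg a (a + (d + 1) + 1) : Set (Fin 31)) =
        (seg a (a + d + 1) : Set (Fin 31)) ∪ {(⟨a + d + 1, by omega⟩ : Fin 31)} := by
      ext i
      simp only [Finset.mem_coe, mem_seg, Set.mem_union, Set.mem_singleton_iff, Fin.ext_iff]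
      omega
    rw [hs]
    have h2 : (spider.induce ({(⟨a + d + 1, by omega⟩ : Fin 31)} : Set (Fin 31))).Preconnected := by
      intro x y
      have : Subsingleton ({(⟨a + d + 1, by omega⟩ : Fin 31)} : Set (Fin 31)) := by
        infer_instance
      rw [Subsingleton.elim x y]
    refine connected_induce_union (v := (⟨a + d, by omega⟩ : Fin 31))
      (w := (⟨a + d + 1, by omega⟩ : Fin 31)) h1.preconnected h2 ?_ rfl ?_
    · simp only [Finset.mem_coe, mem_seg]
      omega
    · rw [adj_iff]
      left
      rcases hg with h | h | h
      · exact Or.inl ⟨rfl, show a + d + 1 ≤ 27 by omega⟩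
      · exact Or.inr (Or.inr (Or.inl ⟨show a + d = 28 by omega, show a + d + 1 = 29 by omega⟩))
      · exfalso
        omega

/-- `S` has a partition into connected blocks whose sizes form the multiset `mu`. -/
def CP (S : Finset (Fin 31)) (mu : Multiset ℕ) : Prop :=
  ∃ P : Finpartition S, (∀ B ∈ P.parts, (spider.induce (B : Set (Fin 31))).Connected) ∧
    P.parts.val.map Finset.card = mu

lemma CP.empty : CP ∅ 0 := by
  refine ⟨Finpartition.empty _, ?_, ?_⟩
  · intro B hB
    simp at hB
  · simp

lemma CP.extend {S B T : Finset (Fin 31)} {mu : Multiset ℕ} (h : CP S mu)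
    (hB : (spider.induce (B : Set (Fin 31))).Connected) (hd : Disjoint S B) (hT : S ∪ B = T) :
    CP T (B.card ::ₘ mu) := by
  obtain ⟨P, hP, hmu⟩ := h
  have hne : B ≠ ⊥ := by
    rintro rfl
    obtain ⟨⟨x, hx⟩⟩ := hB.nonempty
    simp at hx
  refine ⟨P.extend hne hd hT, ?_, ?_⟩
  · intro C hC
    rw [Finpartition.extend_parts, Finset.mem_insert] at hC
    rcases hC with rfl | hC
    · exact hB
    · exact hP C hC
  · rw [Finpartition.extend_parts]
    have hnot : B ∉ P.parts := by
      intro hmem
      have hle : B ≤ S := P.le hmem
      exact hne (disjoint_self.mp (hd.mono_left hle))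
    rw [Finset.insert_val_of_notMem hnot, Multiset.map_cons, hmu]

/-- Partition a segment into consecutive blocks of prescribed sizes. -/
lemma CP.segment {S : Finset (Fin 31)} {mu : Multiset ℕ} (h : CP S mu) (A : Multiset ℕ)
    (hpos : ∀ x ∈ A, 0 < x) :
    ∀ a b : ℕ, a + A.sum = b → Good a b → Disjoint S (seg a b) → CP (S ∪ seg a b) (A + mu) := by
  induction A using Multiset.induction_on with
  | empty =>
    intro a b hab _ _
    have : seg a b = ∅ := by
      ext i
      simp only [mem_seg, Finset.notMem_empty, iff_false]
      simp at hab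
      omega
    rw [this]
    simpa using h
  | cons x A ih =>
    intro a b hab hg hd
    have hx : 0 < x := hpos x (Multiset.mem_cons_self x A)
    rw [Multiset.sum_cons] at hab
    have hsub : seg (a + x) b ⊆ seg a b := by
      intro i
      simp only [mem_seg]
      omega
    have hg1 : Good (a + x) b := by
      rcases hg with h | h | h
      · left; omega
      · right; left; omega
      · right; right; omega
    have hg2 : Good a (a + x) := by
      rcases hg with h | h | h
      · left; omega
      · right; left; omega
      · right; right; omega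
    have h1 := ih (fun y hy => hpos y (Multiset.mem_cons_of_mem hy)) (a + x) b (by omega) hg1
      (hd.mono_right hsub)
    have hb : b ≤ 31 := by rcases hg with h | h | h <;> omega
    have h2 := h1.extend (B := seg a (a + x)) (T := S ∪ seg a b) (seg_connected (by omega) hg2) ?_ ?_
    · rw [seg_card (by omega)] at h2
      have : a + x - a = x := by omega
      rw [this] at h2
      rw [Multiset.cons_add]
      exact h2
    · rw [Finset.disjoint_union_left]
      constructor
      · refine hd.mono_right ?_
        intro i
        simp only [mem_seg]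
        omega
      · rw [Finset.disjoint_left]
        intro i
        simp only [mem_seg]
        omega
    · ext i
      simp only [Finset.mem_union, mem_seg]
      have : a + x ≤ b := by omega
      constructor
      · rintro ((h | h) | h)
        · exact Or.inl h
        · right; omega
        · right; omega
      · rintro (h | h)
        · exact Or.inl (Or.inl h)
        · by_cases hi : i.val < a + x
          · right; omega
          · left; right; omega

/-- The realisation lemma: distributing parts over the four legs. -/
lemma realise (A B C D : Multiset ℕ) (hA : ∀ x ∈ A, 0 < x) (hB : ∀ x ∈ B, 0 < x)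
    (hC : ∀ x ∈ C, 0 < x) (hD : ∀ x ∈ D, 0 < x) (sA : A.sum ≤ 15) (sB : B.sum ≤ 12)
    (sC : C.sum ≤ 2) (sD : D.sum ≤ 1) (s : ℕ) (hs : s + (A + B + C + D).sum = 31) :
    CP Finset.univ (s ::ₘ (A + B + C + D)) := by
  simp only [Multiset.sum_add] at hs
  set α := A.sum with hα
  set β := B.sum with hβ
  set γ := C.sum with hγ
  set δ := D.sum with hδ
  have h0 := CP.empty
  -- outer part of the leg with 15 vertices
  have h1 := h0.segment A hA 0 α (by omega) (by left; omega) (by simp)
  have h2 := h1.segment B hB (28 - β) 28 (by omega) (by left; omega) (by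
    rw [Finset.empty_union, Finset.disjoint_left]
    intro i
    simp only [mem_seg]
    omega)
  have h3 := h2.segment C hC (30 - γ) 30 (by omega) (by right; left; omega) (by
    rw [Finset.disjoint_left]
    intro i
    simp only [mem_seg, Finset.mem_union, Finset.notMem_empty, false_or]
    omega)
  have h4 := h3.segment D hD (31 - δ) 31 (by omega) (by right; right; omega) (by
    rw [Finset.disjoint_left]
    intro i
    simp only [mem_seg, Finset.mem_union, Finset.notMem_empty, false_or]
    omega)
  -- the block containing the centre
  have c1 : (spider.induce (seg α (28 - β) : Set (Fin 31))).Connected :=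
    seg_connected (by omega) (by left; omega)
  have c2 : (spider.induce ((seg α (28 - β) ∪ seg 28 (30 - γ) : Finset (Fin 31)) :
      Set (Fin 31))).Connected := by
    by_cases hc : γ = 2
    · have : seg 28 (30 - γ) = ∅ := by
        ext i
        simp only [mem_seg, Finset.notMem_empty, iff_false]
        omega
      rw [this, Finset.union_empty]
      exact c1
    · rw [Finset.coe_union]
      refine connected_induce_union (v := (15 : Fin 31)) (w := (28 : Fin 31)) c1.preconnected
        (seg_connected (by omega) (by right; left; omega)).preconnected ?_ ?_ ?_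
      · simp only [Finset.mem_coe, mem_seg]
        change α ≤ 15 ∧ 15 < 28 - β
        omega
      · simp only [Finset.mem_coe, mem_seg]
        change 28 ≤ 28 ∧ 28 < 30 - γ
        omega
      · rw [adj_iff]
        left
        right
        left
        exact ⟨rfl, rfl⟩
  have c3 : (spider.induce ((seg α (28 - β) ∪ seg 28 (30 - γ) ∪ seg 30 (31 - δ) :
      Finset (Fin 31)) : Set (Fin 31))).Connected := by
    by_cases hc : δ = 1
    · have : seg 30 (31 - δ) = ∅ := by
        ext i
        simp only [mem_seg, Finset.notMem_empty, iff_false]
        omega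
      rw [this, Finset.union_empty]
      exact c2
    · rw [Finset.coe_union]
      refine connected_induce_union (v := (15 : Fin 31)) (w := (30 : Fin 31)) c2.preconnected
        (seg_connected (by omega) (by right; right; omega)).preconnected ?_ ?_ ?_
      · simp only [Finset.mem_coe, Finset.mem_union, mem_seg]
        left
        change α ≤ 15 ∧ 15 < 28 - β
        omega
      · simp only [Finset.mem_coe, mem_seg]
        change 30 ≤ 30 ∧ 30 < 31 - δ
        omega
      · rw [adj_iff]
        left
        right
        right
        right
        exact ⟨rfl, rfl⟩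
  have hcard : (seg α (28 - β) ∪ seg 28 (30 - γ) ∪ seg 30 (31 - δ)).card = s := by
    rw [Finset.card_union_of_disjoint, Finset.card_union_of_disjoint, seg_card (by omega),
      seg_card (by omega), seg_card (by omega)]
    · omega
    · rw [Finset.disjoint_left]
      intro i
      simp only [mem_seg]
      omega
    · rw [Finset.disjoint_left]
      intro i
      simp only [mem_seg, Finset.mem_union]
      omega
  have h5 := h4.extend (T := Finset.univ) c3 (by
    rw [Finset.disjoint_left]
    intro i
    simp only [mem_seg, Finset.mem_union, Finset.notMem_empty, false_or]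
    omega) (by
    ext i
    have := i.isLt
    simp only [mem_seg, Finset.mem_union, Finset.notMem_empty, false_or, Finset.mem_univ,
      iff_true]
    omega)
  rw [hcard] at h5
  have he : A + B + C + D = D + (C + (B + (A + 0))) := by
    rw [add_zero, add_comm B A, add_comm C (A + B), add_comm D]
  rw [he]
  exact h5

/-! ### The finite check -/

/-- Try to distribute the parts in the list over four legs with capacities `a, b, c, d`. -/
def go : List ℕ → ℕ → ℕ → ℕ → ℕ → Bool
  | [], _, _, _, _ => true
  | k :: t, a, b, c, d =>
    (Nat.ble k a && go t (a - k) b c d) || ((Nat.ble k b && go t a (b - k) c d) ||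
      ((Nat.ble k c && go t a b (c - k) d) || (Nat.ble k d && go t a b c (d - k))))

lemma go_sound (l : List ℕ) : ∀ a b c d : ℕ, go l a b c d = true →
    ∃ A B C D : Multiset ℕ, (l : Multiset ℕ) = A + B + C + D ∧ A.sum ≤ a ∧ B.sum ≤ b ∧
      C.sum ≤ c ∧ D.sum ≤ d := by
  induction l with
  | nil =>
    intro a b c d _
    exact ⟨0, 0, 0, 0, by simp⟩
  | cons k t ih =>
    intro a b c d h
    simp only [go, Bool.or_eq_true, Bool.and_eq_true, Nat.ble_eq] at h
    rcases h with ⟨hk, h⟩ | ⟨hk, h⟩ | ⟨hk, h⟩ | ⟨hk, h⟩
    · obtain ⟨A, B, C, D, e, hA, hB, hC, hD⟩ := ih _ _ _ _ h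
      refine ⟨k ::ₘ A, B, C, D, ?_, ?_, hB, hC, hD⟩
      · rw [← Multiset.cons_coe, e]
        simp only [Multiset.cons_add]
      · rw [Multiset.sum_cons]; omega
    · obtain ⟨A, B, C, D, e, hA, hB, hC, hD⟩ := ih _ _ _ _ h
      refine ⟨A, k ::ₘ B, C, D, ?_, hA, ?_, hC, hD⟩
      · rw [← Multiset.cons_coe, e]
        simp only [Multiset.cons_add, Multiset.add_cons]
      · rw [Multiset.sum_cons]; omega
    · obtain ⟨A, B, C, D, e, hA, hB, hC, hD⟩ := ih _ _ _ _ h
      refine ⟨A, B, k ::ₘ C, D, ?_, hA, hB, ?_, hD⟩
      · rw [← Multiset.cons_coe, e]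
        simp only [Multiset.cons_add, Multiset.add_cons]
      · rw [Multiset.sum_cons]; omega
    · obtain ⟨A, B, C, D, e, hA, hB, hC, hD⟩ := ih _ _ _ _ h
      refine ⟨A, B, C, k ::ₘ D, ?_, hA, hB, hC, ?_⟩
      · rw [← Multiset.cons_coe, e]
        simp only [Multiset.add_cons]
      · rw [Multiset.sum_cons]; omega

/-- The largest part (the head) is used for the centre, the others go to the legs. -/
def go' : List ℕ → Bool
  | [] => false
  | _ :: t => go t 15 12 2 1

/-- Conjunction of `f k` for `n` consecutive values starting from `k`. -/
def allFrom (f : ℕ → Bool) : ℕ → ℕ → Bool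
  | 0, _ => true
  | n + 1, k => f k && allFrom f n (k + 1)

lemma allFrom_spec {f : ℕ → Bool} : ∀ {n k : ℕ}, allFrom f n k = true →
    ∀ j, k ≤ j → j < k + n → f j = true
  | 0, _, _, j, h1, h2 => by omega
  | n + 1, k, h, j, h1, h2 => by
    simp only [allFrom, Bool.and_eq_true] at h
    rcases Nat.eq_or_lt_of_le h1 with rfl | h3
    · exact h.1
    · exact allFrom_spec h.2 j h3 (by omega)

/-- Run through all ways to continue the increasing list of parts by parts `≥ mn` with sum
`rem`; `acc` holds the parts chosen so far, the largest first. -/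
def chk : ℕ → ℕ → ℕ → List ℕ → Bool
  | 0, _, _, _ => true
  | f + 1, rem, mn, acc =>
    match rem with
    | 0 => go' acc
    | r + 1 => allFrom (fun k => chk f (r + 1 - k) k (k :: acc)) (r + 2 - mn) mn

lemma chk_spec : ∀ (f rem mn : ℕ) (acc : List ℕ), chk f rem mn acc = true →
    ∀ l : List ℕ, l.Pairwise (· ≤ ·) → (∀ x ∈ l, mn ≤ x) → 0 < mn → l.sum = rem → rem < f →
      go' (l.reverse ++ acc) = true
  | 0, _, _, _, _, _, _, _, _, _, h => by omega
  | f + 1, rem, mn, acc, h, l, hl, hmn, h0, hsum, hf => by
    cases l with
    | nil =>
      simp only [List.sum_nil] at hsum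
      subst hsum
      simpa [chk] using h
    | cons x t =>
      have hx : mn ≤ x := hmn x List.mem_cons_self
      rw [List.sum_cons] at hsum
      obtain ⟨r, rfl⟩ : ∃ r, rem = r + 1 := ⟨rem - 1, by omega⟩
      simp only [chk] at h
      have h1 := allFrom_spec h x hx (by omega)
      rw [List.pairwise_cons] at hl
      have h2 := chk_spec f (r + 1 - x) x (x :: acc) h1 t hl.2 (fun y hy => hl.1 y hy) (by omega)
        (by omega) (by omega)
      rw [List.reverse_cons, List.append_assoc]
      exact h2

set_option maxRecDepth 100000 in
lemma chk_all : chk 32 31 1 [] = true := by decide +kernel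

lemma all_types (lam : Multiset ℕ) (hpos : ∀ x ∈ lam, 0 < x) (hsum : lam.sum = 31) :
    CP Finset.univ lam := by
  set l := lam.sort (· ≤ ·) with hl
  have hlam : (l : Multiset ℕ) = lam := Multiset.sort_eq lam _
  have hsorted : l.Pairwise (· ≤ ·) := Multiset.pairwise_sort lam _
  have hmem : ∀ x ∈ l, 1 ≤ x := by
    intro x hx
    apply hpos
    rw [← hlam]
    exact hx
  have hs : l.sum = 31 := by
    rw [← hsum, ← hlam, Multiset.sum_coe]
  have h := chk_spec 32 31 1 [] chk_all l hsorted hmem (by omega) hs (by omega)
  rw [List.append_nil] at h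
  have hrev : ((l.reverse : List ℕ) : Multiset ℕ) = lam := by
    rw [← hlam]
    exact Multiset.coe_reverse l
  cases hr : l.reverse with
  | nil =>
    rw [hr] at h
    simp [go'] at h
  | cons s t =>
    rw [hr] at h hrev
    simp only [go'] at h
    obtain ⟨A, B, C, D, e, hA, hB, hC, hD⟩ := go_sound t 15 12 2 1 h
    have hlam' : lam = s ::ₘ (A + B + C + D) := by
      rw [← hrev, ← Multiset.cons_coe, e]
    rw [hlam']
    have hp : ∀ x ∈ A + B + C + D, 0 < x := by
      intro x hx
      apply hpos
      rw [hlam']
      exact Multiset.mem_cons_of_mem hx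
    refine realise A B C D ?_ ?_ ?_ ?_ hA hB hC hD s ?_
    · intro x hx
      exact hp x (by simp [hx])
    · intro x hx
      exact hp x (by simp [hx])
    · intro x hx
      exact hp x (by simp [hx])
    · intro x hx
      exact hp x (by simp [hx])
    · rw [← Multiset.sum_cons, ← hlam', hsum]

lemma spider_connected : spider.Connected := by
  obtain ⟨P, hP, hmu⟩ := all_types {31} (by simp) (by simp)
  have h1 : P.parts.card = 1 := by
    have := congrArg Multiset.card hmu
    simpa using this
  obtain ⟨B, hB⟩ := Finset.card_eq_one.mp h1
  have h2 : B = Finset.univ := by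
    have := P.sup_parts
    rw [hB] at this
    simpa using this
  have h3 := hP B (by rw [hB]; exact Finset.mem_singleton_self B)
  rw [h2, Finset.coe_univ] at h3
  exact (induceUnivIso spider).connected_iff.mp h3

lemma spider_degree : ∀ v : Fin 31, spider.degree v =
    (if v.val = 15 then 4 else if v.val = 0 ∨ v.val = 27 ∨ v.val = 29 ∨ v.val = 30 then 1
      else 2) := by
  decide +kernel

lemma spider_isTree : spider.IsTree := by
  rw [isTree_iff_connected_and_card]
  refine ⟨spider_connected, ?_⟩
  have h := spider.sum_degrees_eq_twice_card_edges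
  have h2 : ∑ v : Fin 31, spider.degree v = 60 := by
    simp only [spider_degree]
    decide +kernel
  rw [h2] at h
  rw [Nat.card_eq_fintype_card, Nat.card_eq_fintype_card, Fintype.card_fin, ← edgeFinset_card]
  omega

lemma spider_maxDegree : spider.maxDegree = 4 := by
  apply le_antisymm
  · apply maxDegree_le_of_forall_degree_le
    intro v
    rw [spider_degree]
    split_ifs <;> omega
  · have := spider.degree_le_maxDegree (15 : Fin 31)
    rw [spider_degree] at this
    simpa using this

/-- There is a CPET tree (on 31 vertices) in which every vertex of degree four is adjacent to at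
most one leaf. -/
theorem result : ∃ (G : SimpleGraph (Fin 31)) (_ : DecidableRel G.Adj),
    IsCPET G ∧
      ∀ v, G.degree v = 4 → (Finset.univ.filter fun u => G.Adj v u ∧ G.degree u = 1).card ≤ 1 := by
  refine ⟨spider, inferInstance, ⟨spider_isTree, spider_maxDegree, ?_⟩, ?_⟩
  · intro lam
    exact all_types lam.parts (fun x hx => lam.parts_pos hx) (by
      rw [lam.parts_sum]
      exact Fintype.card_fin 31)
  · intro v hv
    have hv15 : v = 15 := by
      rw [spider_degree] at hv
      split_ifs at hv with h1 h2
      · exact Fin.ext h1
      · omega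
      · omega
    subst hv15
    simp only [spider_degree]
    decide +kernel

end Pool.Agent.Results.MP_6c5f5a_co.Counterexample
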